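import Pool.Agent.H72.Eff

set_option autoImplicit false

open MvPolynomial

namespace Pool.Agent.H72

/-- the special seven points -/
def q0 : Fin 7 → Fin 3 → ℤ :=
  ![![1, 3, 4], ![1, 2, 2], ![1, 1, 1], ![1, 6, 5], ![1, 0, 2], ![1, 4, 3], ![1, 4, 0]]

/-- the special weights -/
def c0 : Fin 7 → ℤ := ![2, 4, 4, 5, 0, 5, 3]

/-- the statement checked by computation in the kernel -/
def Cert : Prop := ∃ A : Matrix (IF ⊕ IG) (RL ⊕ RA) ℤ,
    (A * Big (qq q0) (cc c0)).map (Int.castRingHom (ZMod 7)) = 1

lemma VV_map {R S : Type*} [CommRing R] [CommRing S] (φ : R →+* S) (q : Fin 7 → Fin 3 → R) :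
    (fun i j => φ (VV q i j)) = VV (fun i j => φ (q i j)) := by
  ext i j
  unfold VV
  split_ifs
  · rw [Pi.single_apply, Pi.single_apply]
    split_ifs <;> simp
  all_goals simp

variable {k : Type*} [Field k] [CharZero k]

theorem stepA (hc : Cert) (q : Fin 7 → Fin 3 → k) :
    ∃ F : MvPolynomial (Fin 7) k, F ≠ 0 ∧ F.IsHomogeneous 14 ∧
      ∀ i, F ∈ mI (VV q i) ^ (14 - bb i) := by
  obtain ⟨A, hA⟩ := hc
  let σ := Fin 7 × Fin 3
  let ξ : Fin 7 → Fin 3 → MvPolynomial σ k := fun i j => X (i, j)
  let cp : Fin 7 → MvPolynomial σ k := fun i => ((c0 i : ℤ) : MvPolynomial σ k)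
  let Ap : Matrix (IF ⊕ IG) (RL ⊕ RA) (MvPolynomial σ k) :=
    Matrix.map A (Int.castRingHom (MvPolynomial σ k))
  let G : MvPolynomial σ k := Matrix.det (Ap * Big (qq ξ) (cc cp))
  have hev : ∀ x : σ → k, eval x G =
      Matrix.det (Matrix.map A (Int.castRingHom k) *
        Big (qq (fun i j => x (i, j))) (cc (fun i => ((c0 i : ℤ) : k)))) := by
    intro x
    show eval x (Matrix.det (Ap * Big (qq ξ) (cc cp))) = _
    rw [RingHom.map_det, RingHom.mapMatrix_apply, Matrix.map_mul, Big_map, qq_map, cc_map]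
    congr 2
    · ext i j; simp [Ap]
    · congr 2
      · ext i j; simp [ξ]
      · ext i; simp [cp]
  have hG : G ≠ 0 := by
    intro h0
    have h1 := hev (fun s => ((q0 s.1 s.2 : ℤ) : k))
    rw [h0] at h1
    have h2 : Matrix.det (Matrix.map A (Int.castRingHom k) *
        Big (qq (fun i j => ((q0 i j : ℤ) : k))) (cc (fun i => ((c0 i : ℤ) : k)))) =
        ((Matrix.det (A * Big (qq q0) (cc c0)) : ℤ) : k) := by
      have := RingHom.map_det (Int.castRingHom k) (A * Big (qq q0) (cc c0))
      rw [RingHom.mapMatrix_apply, Matrix.map_mul, Big_map, qq_map, cc_map] at this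
      simpa using this.symm
    have h3 : ((Matrix.det (A * Big (qq q0) (cc c0)) : ℤ) : k) = 0 := by
      rw [← h2]
      have : eval (fun s : σ => ((q0 s.1 s.2 : ℤ) : k)) (0 : MvPolynomial σ k) = 0 := by simp
      rw [this] at h1
      exact h1.symm
    have h4 : Matrix.det (A * Big (qq q0) (cc c0)) = 0 := by exact_mod_cast h3
    have h5 := RingHom.map_det (Int.castRingHom (ZMod 7)) (A * Big (qq q0) (cc c0))
    rw [RingHom.mapMatrix_apply, hA, Matrix.det_one, h4, map_zero] at h5
    exact absurd h5 (by decide)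
  have := closedness (σ := σ) 14 (fun i => 14 - bb i) (VV ξ) G hG (by
    intro x hx
    have e : ∀ i, (fun j => eval x (VV ξ i j)) = VV (fun i j => x (i, j)) i := by
      intro i
      have := congrFun (VV_map (eval x) ξ) i
      rw [this]
      congr 1
      ext i j; simp [ξ]
    simp only [e]
    apply eff_of_inj _ (fun i => ((c0 i : ℤ) : k))
    intro y hy
    rw [hev] at hx
    apply Matrix.eq_zero_of_mulVec_eq_zero hx
    rw [← Matrix.mulVec_mulVec, hy, Matrix.mulVec_zero]) (fun s => q s.1 s.2)
  have e : ∀ i, (fun j => eval (fun s : σ => q s.1 s.2) (VV ξ i j)) = VV q i := by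
    intro i
    have := congrFun (VV_map (eval (fun s : σ => q s.1 s.2)) ξ) i
    rw [this]
    congr 1
    ext i j; simp [ξ]
  simpa only [e] using this

theorem stepB (hc : Cert) (v : Fin 10 → Fin 7 → k) :
    ∃ F : MvPolynomial (Fin 7) k, F ≠ 0 ∧ F.IsHomogeneous 14 ∧
      ∀ i, F ∈ mI (v i) ^ (14 - bb i) := by
  let σ := Fin 10 × Fin 7
  let W : Fin 10 → Fin 7 → MvPolynomial σ k := fun i j => X (i, j)
  let Tp : Matrix (Fin 7) (Fin 7) (MvPolynomial σ k) :=
    Matrix.of fun j i => X (Fin.castLE (by norm_num) i, j)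
  have hev : ∀ x : σ → k, eval x (Matrix.det Tp) =
      Matrix.det (Matrix.of fun (j i : Fin 7) => x ((Fin.castLE (by norm_num) i : Fin 10), j)) := by
    intro x
    rw [RingHom.map_det, RingHom.mapMatrix_apply]
    congr 1
    ext i j; simp [Tp]
  have hG : Matrix.det Tp ≠ 0 := by
    intro h0
    have h1 := hev (fun s => if (s.1 : ℕ) = (s.2 : ℕ) then 1 else 0)
    rw [h0, map_zero] at h1
    have h2 : (Matrix.of fun (j i : Fin 7) =>
        (if ((Fin.castLE (by norm_num) i : Fin 10) : ℕ) = (j : ℕ) then (1 : k) else 0)) = 1 := by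
      ext i j
      simp only [Matrix.of_apply, Fin.val_castLE, Matrix.one_apply]
      by_cases h : i = j
      · subst h; simp
      · rw [if_neg, if_neg h]
        intro h'
        exact h (Fin.ext h'.symm)
    simp only at h1
    rw [h2, Matrix.det_one] at h1
    exact zero_ne_one h1
  have := closedness (σ := σ) 14 (fun i => 14 - bb i) W (Matrix.det Tp) hG (by
    intro x hx
    rw [hev] at hx
    set T : Matrix (Fin 7) (Fin 7) k :=
      Matrix.of fun (j i : Fin 7) => x ((Fin.castLE (by norm_num) i : Fin 10), j) with hT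
    have uT : IsUnit T.det := isUnit_iff_ne_zero.mpr hx
    let w : Fin 10 → Fin 7 → k := fun i j => x (i, j)
    let B : Fin 10 → Fin 7 → k := fun i => T⁻¹.mulVec (w i)
    let q : Fin 7 → Fin 3 → k := fun j => ![-B 7 j - B 8 j - B 9 j, - B 8 j, - B 9 j]
    have hq : ∀ i, VV q i = T⁻¹.mulVec (w i) := by
      intro i
      by_cases h : (i : ℕ) < 7
      · have hV : VV q i = Pi.single ⟨i, h⟩ 1 := by unfold VV; rw [dif_pos h]
        rw [hV]
        have hw : w i = T.mulVec (Pi.single ⟨i, h⟩ 1) := by
          ext j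
          rw [Matrix.mulVec_single_one]
          rfl
        rw [hw, Matrix.mulVec_mulVec, Matrix.nonsing_inv_mul T uT, Matrix.one_mulVec]
      · have hi : i = 7 ∨ i = 8 ∨ i = 9 := by
          have := i.2
          have h' : (i : ℕ) = 7 ∨ (i : ℕ) = 8 ∨ (i : ℕ) = 9 := by omega
          rcases h' with h' | h' | h'
          · left; exact Fin.ext h'
          · right; left; exact Fin.ext h'
          · right; right; exact Fin.ext h'
        rcases hi with rfl | rfl | rfl
        · ext j
          have hV : VV q 7 j = - q j 0 + q j 1 + q j 2 := by simp [VV]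
          rw [hV]
          show _ = B 7 j
          simp [q]
          ring
        · ext j
          have hV : VV q 8 j = - q j 1 := by simp [VV]
          rw [hV]
          show _ = B 8 j
          simp [q]
        · ext j
          have hV : VV q 9 j = - q j 2 := by simp [VV]
          rw [hV]
          show _ = B 9 j
          simp [q]
    obtain ⟨F, hF0, hFh, hF⟩ := stepA hc q
    refine ⟨pull T⁻¹ F, ?_, pull_homog _ _ _ hFh, ?_⟩
    · apply pull_ne_zero _ _ _ hF0
      intro y
      exact ⟨T.mulVec y, by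
        rw [Matrix.mulVec_mulVec, Matrix.nonsing_inv_mul T uT, Matrix.one_mulVec]⟩
    · intro i
      apply pull_mem
      have e : (fun j => eval x (W i j)) = w i := by
        ext j; simp [W, w]
      rw [e, ← hq i]
      exact hF i) (fun s => v s.1 s.2)
  have e : ∀ i, (fun j => eval (fun s : σ => v s.1 s.2) (W i j)) = v i := by
    intro i
    ext j; simp [W]
  simpa only [e] using this

/-- the multiplicities `(9, 10^9, 14^(n-6))` -/
def mult (n : ℕ) (i : Fin (n + 4)) : ℕ :=
  if (i : ℕ) = 0 then 9 else if (i : ℕ) < 10 then 10 else 14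

theorem stepC (hc : Cert) (n : ℕ) (hn : 6 ≤ n) (v : Fin (n + 4) → Fin (n + 1) → k) :
    ∃ F : MvPolynomial (Fin (n + 1)) k, F ≠ 0 ∧ F.IsHomogeneous 14 ∧
      ∀ i, F ∈ mI (v i) ^ (mult n i) := by
  classical
  -- a surjection killing the last n - 6 points
  let S : Finset (Fin (n + 1) → k) :=
    (Finset.univ.filter (fun i : Fin (n + 4) => 10 ≤ (i : ℕ))).image v
  have hS : S.card ≤ n - 6 := by
    refine Finset.card_image_le.trans ?_
    have h1 : (Finset.univ.filter (fun i : Fin (n + 4) => 10 ≤ (i : ℕ))).card ≤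
        (Finset.Ico 10 (n + 4)).card := by
      apply Finset.card_le_card_of_injOn (fun i : Fin (n + 4) => (i : ℕ))
      · intro i hi
        have hi' : 10 ≤ (i : ℕ) := by simpa using hi
        simp only [Finset.coe_Ico, Set.mem_Ico]
        exact ⟨hi', i.2⟩
      · intro a _ b _ h
        exact Fin.ext h
    rw [Nat.card_Ico] at h1
    omega
  let Wsub : Submodule k (Fin (n + 1) → k) := Submodule.span k (S : Set (Fin (n + 1) → k))
  have hW : Module.finrank k Wsub ≤ n - 6 := (finrank_span_finset_le_card S).trans hS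
  have hquot : 7 ≤ Module.finrank k ((Fin (n + 1) → k) ⧸ Wsub) := by
    have := Submodule.finrank_quotient_add_finrank Wsub
    rw [Module.finrank_fintype_fun_eq_card, Fintype.card_fin] at this
    omega
  obtain ⟨g, hg⟩ : ∃ g : ((Fin (n + 1) → k) ⧸ Wsub) →ₗ[k] (Fin 7 → k),
      Function.Surjective g := by
    refine ⟨LinearMap.funLeft k k (Fin.castLE hquot) ∘ₗ
      (Module.finBasis k ((Fin (n + 1) → k) ⧸ Wsub)).equivFun.toLinearMap, ?_⟩
    exact (LinearMap.funLeft_surjective_of_injective k k _ (Fin.castLE_injective hquot)).comp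
      (Module.finBasis k ((Fin (n + 1) → k) ⧸ Wsub)).equivFun.surjective
  let π : (Fin (n + 1) → k) →ₗ[k] (Fin 7 → k) := g ∘ₗ Wsub.mkQ
  have hπ : Function.Surjective π := hg.comp (Submodule.mkQ_surjective _)
  let T := LinearMap.toMatrix' π
  have hT : ∀ x, T.mulVec x = π x := fun x => LinearMap.toMatrix'_mulVec π x
  obtain ⟨F, hF0, hFh, hF⟩ := stepB hc (fun i => π (v (Fin.castLE (by omega) i)))
  refine ⟨pull T F, ?_, pull_homog _ _ _ hFh, ?_⟩
  · apply pull_ne_zero _ _ _ hF0
    intro y
    obtain ⟨x, hx⟩ := hπ y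
    exact ⟨x, by rw [hT, hx]⟩
  · intro i
    apply pull_mem
    rw [hT]
    by_cases hi : (i : ℕ) < 10
    · have h1 := hF ⟨i, hi⟩
      have e : (Fin.castLE (by omega) (⟨i, hi⟩ : Fin 10) : Fin (n + 4)) = i := Fin.ext rfl
      simp only [e] at h1
      have e2 : 14 - bb ⟨i, hi⟩ = mult n i := by
        unfold bb mult
        by_cases h0 : (i : ℕ) = 0
        · rw [if_pos (Fin.ext h0), if_pos h0]
        · rw [if_neg (fun h => h0 (by simpa using congrArg Fin.val h)), if_neg h0, if_pos hi]
      rw [← e2]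
      exact h1
    · have h0 : π (v i) = 0 := by
        show g (Wsub.mkQ (v i)) = 0
        have : v i ∈ Wsub := by
          apply Submodule.subset_span
          rw [Finset.mem_coe, Finset.mem_image]
          exact ⟨i, by simp; omega, rfl⟩
        rw [Submodule.mkQ_apply, (Submodule.Quotient.mk_eq_zero Wsub).mpr this, map_zero]
      rw [h0]
      have e2 : mult n i = 14 := by
        unfold mult
        rw [if_neg (by omega), if_neg hi]
      rw [e2]
      exact homog_mem_zero F hFh

end Pool.Agent.H72
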