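import Pool.Agent.H72.CertCheck
import Pool.Agent.H72.Generic

set_option autoImplicit false

namespace Pool.Agent.H72

lemma bbN_eq : ∀ i : Fin 10, bbN i = bb i := by decide +kernel

lemma sumRL {M : Type*} [AddCommMonoid M] (F : ℕ → ℕ → ℕ → M) :
    ∑ i ∈ Finset.range 10, ∑ α ∈ Finset.range (bbN i - 1), ∑ β ∈ Finset.range (bbN i - 1 - α),
      F i α β = ∑ r : RL, F r.1 r.2.1 r.2.2 := by
  rw [Fintype.sum_sigma, Finset.sum_range]
  apply Finset.sum_congr rfl
  intro i _
  rw [Fintype.sum_sigma, bbN_eq, Finset.sum_range]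
  apply Finset.sum_congr rfl
  intro α _
  rw [Finset.sum_range]

lemma sumRA {M : Type*} [AddCommMonoid M] (F : ℕ → ℕ → ℕ → M) :
    ∑ i ∈ Finset.range 10, ∑ α ∈ Finset.range (bbN i), ∑ β ∈ Finset.range (bbN i - α),
      F i α β = ∑ r : RA, F r.1 r.2.1 r.2.2 := by
  rw [Fintype.sum_sigma, Finset.sum_range]
  apply Finset.sum_congr rfl
  intro i _
  rw [Fintype.sum_sigma, bbN_eq, Finset.sum_range]
  apply Finset.sum_congr rfl
  intro α _
  rw [Finset.sum_range]

lemma sum_digits_lt (f : ℕ → ℕ) (hf : ∀ n, f n < 8192) (m : ℕ) :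
    ∑ n ∈ Finset.range m, f n * 8192 ^ n < 8192 ^ m := by
  induction m with
  | zero => simp
  | succ m ih =>
    rw [Finset.sum_range_succ, pow_succ]
    have := hf m
    have h2 : f m * 8192 ^ m ≤ 8191 * 8192 ^ m := Nat.mul_le_mul_right _ (by omega)
    omega

lemma dig_sum (f : ℕ → ℕ) (hf : ∀ n, f n < 8192) (m n : ℕ) (hn : n < m) :
    dig (∑ n ∈ Finset.range m, f n * 8192 ^ n) n = f n := by
  unfold dig
  induction m with
  | zero => omega
  | succ m ih =>
    rw [Finset.sum_range_succ]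
    rcases Nat.lt_succ_iff_lt_or_eq.mp hn with h | h
    · have e : f m * 8192 ^ m = 8192 ^ n * (8192 * (8192 ^ (m - n - 1) * f m)) := by
        have : m = n + (1 + (m - n - 1)) := by omega
        conv_lhs => rw [this, pow_add, pow_add, ← this]
        ring
      rw [e, Nat.add_mul_div_left _ _ (by positivity), Nat.add_mul_mod_self_left]
      exact ih h
    · subst h
      rw [Nat.add_mul_div_right _ _ (by positivity), Nat.div_eq_of_lt (sum_digits_lt f hf n),
        zero_add, Nat.mod_eq_of_lt (hf n)]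

lemma dig_lt (x n : ℕ) : dig x n < 8192 := Nat.mod_lt _ (by norm_num)

lemma eq_sum_dig (m : ℕ) : ∀ x : ℕ, x < 8192 ^ m →
    x = ∑ n ∈ Finset.range m, dig x n * 8192 ^ n := by
  induction m with
  | zero => intro x hx; simp at hx; simp [hx]
  | succ m ih =>
    intro x hx
    have h1 : x % 8192 ^ m < 8192 ^ m := Nat.mod_lt _ (by positivity)
    have h2 := ih (x % 8192 ^ m) h1
    rw [Finset.sum_range_succ]
    have h3 : dig x m = x / 8192 ^ m := by
      unfold dig
      apply Nat.mod_eq_of_lt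
      rw [Nat.div_lt_iff_lt_mul (by positivity)]
      rw [pow_succ] at hx
      linarith
    have h4 : ∑ n ∈ Finset.range m, dig x n * 8192 ^ n =
        ∑ n ∈ Finset.range m, dig (x % 8192 ^ m) n * 8192 ^ n := by
      apply Finset.sum_congr rfl
      intro n hn
      rw [Finset.mem_range] at hn
      congr 1
      unfold dig
      have : m = n + 1 + (m - n - 1) := by omega
      rw [this, pow_add, pow_succ]
      rw [mul_assoc]
      rw [Nat.mod_mul_right_div_self]
      rw [Nat.mod_mod_of_dvd]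
      exact Dvd.intro _ rfl
    rw [h4, ← h2, h3]
    have := Nat.mod_add_div x (8192 ^ m)
    rw [mul_comm] at this
    omega

lemma MNe_le (w i a b α β : ℕ) : MNe w i a b α β ≤ 6 := by
  unfold MNe
  have := Nat.mod_lt (w * pcN (nth 0 yL i) a α * pcN (nth 0 zL i) b β) (by norm_num : 7 > 0)
  omega

lemma AL_spec (r : RL) : AL r.1 r.2.1 r.2.2 < 8192 ^ 169 ∧
    ∀ n < 169, dig (AL r.1 r.2.1 r.2.2) n ≤ 6 := by
  obtain ⟨i, α, β⟩ := r
  have h := chk1L_true
  unfold chk1L at h
  rw [allTo_iff] at h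
  have h1 := h i i.2
  rw [allTo_iff, bbN_eq] at h1
  have h2 := h1 α α.2
  rw [allTo_iff] at h2
  have h3 := h2 β β.2
  unfold chkDig at h3
  rw [Bool.and_eq_true, allTo_iff] at h3
  refine ⟨by simpa using h3.1, ?_⟩
  intro n hn
  have := h3.2 n hn
  simpa using this

lemma AA_spec (r : RA) : AA r.1 r.2.1 r.2.2 < 8192 ^ 169 ∧
    ∀ n < 169, dig (AA r.1 r.2.1 r.2.2) n ≤ 6 := by
  obtain ⟨i, α, β⟩ := r
  have h := chk1A_true
  unfold chk1A at h
  rw [allTo_iff] at h
  have h1 := h i i.2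
  rw [allTo_iff, bbN_eq] at h1
  have h2 := h1 α α.2
  rw [allTo_iff] at h2
  have h3 := h2 β β.2
  unfold chkDig at h3
  rw [Bool.and_eq_true, allTo_iff] at h3
  refine ⟨by simpa using h3.1, ?_⟩
  intro n hn
  have := h3.2 n hn
  simpa using this

/-- packed columns of `A` -/
noncomputable def acol : RL ⊕ RA → ℕ
  | Sum.inl r => AL r.1 r.2.1 r.2.2
  | Sum.inr r => AA r.1 r.2.1 r.2.2

noncomputable def pos : IF ⊕ IG → ℕ
  | Sum.inl c => posF c.1 c.2
  | Sum.inr c => posG c.1 c.2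

/-- entries of the big matrix modulo 7, as natural numbers -/
noncomputable def mn : RL ⊕ RA → IF ⊕ IG → ℕ
  | Sum.inl r, Sum.inl c => MNe 1 r.1 c.1 c.2 r.2.1 r.2.2
  | Sum.inl _, Sum.inr _ => 0
  | Sum.inr r, Sum.inl c => MNe (nth 0 cL r.1) r.1 c.1 c.2 r.2.1 r.2.2
  | Sum.inr r, Sum.inr c => MNe 1 r.1 c.1 c.2 r.2.1 r.2.2

lemma acol_spec (r : RL ⊕ RA) : acol r < 8192 ^ 169 ∧ ∀ n < 169, dig (acol r) n ≤ 6 := by
  rcases r with r | r
  · exact AL_spec r
  · exact AA_spec r

lemma mn_le (r : RL ⊕ RA) (c : IF ⊕ IG) : mn r c ≤ 6 := by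
  rcases r with r | r <;> rcases c with c | c <;> simp only [mn, MNe_le, Nat.zero_le]

/-- the packed column of the product -/
noncomputable def tcol (c : IF ⊕ IG) : ℕ := ∑ r, mn r c * acol r

lemma TF_eq (a b : ℕ) : TF a b = ∑ r : RL, MNe 1 r.1 a b r.2.1 r.2.2 * AL r.1 r.2.1 r.2.2 +
    ∑ r : RA, MNe (nth 0 cL r.1) r.1 a b r.2.1 r.2.2 * AA r.1 r.2.1 r.2.2 := by
  unfold TF
  simp only [sumTo_eq]
  rw [sumRL (fun i α β => MNe 1 i a b α β * AL i α β),
    sumRA (fun i α β => MNe (nth 0 cL i) i a b α β * AA i α β)]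

lemma TG_eq (a b : ℕ) : TG a b =
    ∑ r : RA, MNe 1 r.1 a b r.2.1 r.2.2 * AA r.1 r.2.1 r.2.2 := by
  unfold TG
  simp only [sumTo_eq]
  rw [sumRA (fun i α β => MNe 1 i a b α β * AA i α β)]

lemma tcol_inl (c : IF) : tcol (Sum.inl c) = TF c.1 c.2 := by
  unfold tcol
  rw [Fintype.sum_sum_type, TF_eq]
  simp only [mn, acol]

lemma tcol_inr (c : IG) : tcol (Sum.inr c) = TG c.1 c.2 := by
  unfold tcol
  rw [Fintype.sum_sum_type]
  have h0 : ∑ r : RL, mn (Sum.inl r) (Sum.inr c) * acol (Sum.inl r) = 0 := by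
    apply Finset.sum_eq_zero
    intro r _
    simp [mn]
  rw [h0, zero_add, TG_eq]
  simp only [mn, acol]

lemma dig_tcol (c : IF ⊕ IG) (n : ℕ) (hn : n < 169) :
    dig (tcol c) n = ∑ r, mn r c * dig (acol r) n := by
  have hcard : Fintype.card (RL ⊕ RA) = 169 := by
    rw [Fintype.card_sum, card_RL, card_RA]
  let f : ℕ → ℕ := fun n => if n < 169 then ∑ r, mn r c * dig (acol r) n else 0
  have hf : ∀ n, f n < 8192 := by
    intro n
    by_cases h : n < 169
    · have h1 : f n ≤ ∑ _r : RL ⊕ RA, 36 := by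
        simp only [f, if_pos h]
        apply Finset.sum_le_sum
        intro r _
        calc mn r c * dig (acol r) n ≤ 6 * 6 := Nat.mul_le_mul (mn_le r c) ((acol_spec r).2 n h)
          _ = 36 := by norm_num
      rw [Finset.sum_const, Finset.card_univ, hcard] at h1
      simp at h1
      omega
    · simp [f, h]
  have h1 : tcol c = ∑ n ∈ Finset.range 169, f n * 8192 ^ n := by
    unfold tcol
    have h2 : ∀ r : RL ⊕ RA, mn r c * acol r =
        ∑ n ∈ Finset.range 169, mn r c * dig (acol r) n * 8192 ^ n := by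
      intro r
      conv_lhs => rw [eq_sum_dig 169 (acol r) (acol_spec r).1]
      rw [Finset.mul_sum]
      apply Finset.sum_congr rfl
      intro n _
      ring
    rw [Finset.sum_congr rfl (fun r _ => h2 r), Finset.sum_comm]
    apply Finset.sum_congr rfl
    intro n hn
    rw [Finset.mem_range] at hn
    simp only [f, if_pos hn]
    rw [Finset.sum_mul]
  rw [h1, dig_sum f hf 169 n hn]
  simp only [f, if_pos hn]

lemma posF_lt (c : IF) : posF c.1 c.2 < 78 := by
  obtain ⟨a, b⟩ := c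
  have h : ∀ a : Fin 12, nth 0 offFL a + (12 - a) ≤ 78 := by decide +kernel
  have := h a
  have := b.2
  unfold posF
  simp only
  omega

lemma posG_lt (c : IG) : 78 ≤ posG c.1 c.2 ∧ posG c.1 c.2 < 169 := by
  obtain ⟨a, b⟩ := c
  have h : ∀ a : Fin 13, nth 0 offGL a + (13 - a) ≤ 91 := by decide +kernel
  have := h a
  have := b.2
  unfold posG
  simp only
  omega

lemma pos_lt (c : IF ⊕ IG) : pos c < 169 := by
  rcases c with c | c
  · have := posF_lt c; simp only [pos]; omega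
  · exact (posG_lt c).2

lemma posF_inj (c d : IF) (h : posF c.1 c.2 = posF d.1 d.2) : c = d := by
  obtain ⟨a, b⟩ := c
  obtain ⟨a', b'⟩ := d
  have key : ∀ a a' : Fin 12, a < a' → nth 0 offFL a + (12 - a) ≤ nth 0 offFL a' := by
    decide +kernel
  unfold posF at h
  simp only at h
  have hb := b.2
  have hb' := b'.2
  rcases lt_trichotomy a a' with h1 | h1 | h1
  · have := key a a' h1; omega
  · subst h1
    have : b = b' := Fin.ext (by omega)
    rw [this]
  · have := key a' a h1; omega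

lemma posG_inj (c d : IG) (h : posG c.1 c.2 = posG d.1 d.2) : c = d := by
  obtain ⟨a, b⟩ := c
  obtain ⟨a', b'⟩ := d
  have key : ∀ a a' : Fin 13, a < a' → nth 0 offGL a + (13 - a) ≤ nth 0 offGL a' := by
    decide +kernel
  unfold posG at h
  simp only at h
  have hb := b.2
  have hb' := b'.2
  rcases lt_trichotomy a a' with h1 | h1 | h1
  · have := key a a' h1; omega
  · subst h1
    have : b = b' := Fin.ext (by omega)
    rw [this]
  · have := key a' a h1; omega

lemma pos_inj (c d : IF ⊕ IG) (h : pos c = pos d) : c = d := by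
  rcases c with c | c <;> rcases d with d | d
  · exact congrArg _ (posF_inj c d h)
  · have := posF_lt c; have := (posG_lt d).1; simp only [pos] at h; omega
  · have := posF_lt d; have := (posG_lt c).1; simp only [pos] at h; omega
  · exact congrArg _ (posG_inj c d h)

lemma chkCol_spec (x p : ℕ) (h : chkCol x p = true) (n : ℕ) (hn : n < 169) :
    dig x n % 7 = if n = p then 1 else 0 := by
  unfold chkCol at h
  rw [allTo_iff] at h
  have h1 := h n hn
  rw [Nat.beq_eq] at h1
  rw [h1]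
  by_cases hp : n = p
  · subst hp; simp
  · have : Nat.beq n p = false := by
      rw [Bool.eq_false_iff]; intro h'; exact hp (Nat.eq_of_beq_eq_true h')
    rw [this, if_neg hp]

lemma tcol_spec (c j : IF ⊕ IG) : dig (tcol c) (pos j) % 7 = if j = c then 1 else 0 := by
  have h : ∀ n < 169, dig (tcol c) n % 7 = if n = pos c then 1 else 0 := by
    rcases c with c | c
    · rw [tcol_inl]
      have h := chk2F_true
      unfold chk2F at h
      rw [allTo_iff] at h
      have h1 := h c.1 c.1.2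
      rw [allTo_iff] at h1
      have h2 := h1 c.2 c.2.2
      exact chkCol_spec _ _ h2
    · rw [tcol_inr]
      have h := chk2G_true
      unfold chk2G at h
      rw [allTo_iff] at h
      have h1 := h c.1 c.1.2
      rw [allTo_iff] at h1
      have h2 := h1 c.2 c.2.2
      exact chkCol_spec _ _ h2
  rw [h _ (pos_lt j)]
  by_cases hj : j = c
  · subst hj; simp
  · rw [if_neg hj, if_neg (fun h' => hj (pos_inj _ _ h'))]

/-- specification of the table of one-variable jets -/
lemma pcN_spec : ∀ q : Fin 7, ∀ a : Fin 13, ∀ α : Fin 5,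
    (((q : ℕ) ^ ((a : ℕ) - α) * (a : ℕ).choose α : ℕ)) % 7 = pcN q a α % 7 := by
  decide +kernel

lemma pc_cast (q : ℕ) (hq : q < 7) (a : ℕ) (ha : a < 13) (α : ℕ) (hα : α < 5) :
    ((pcN q a α : ℕ) : ZMod 7) = pc ((q : ℕ) : ZMod 7) a α := by
  have h := pcN_spec ⟨q, hq⟩ ⟨a, ha⟩ ⟨α, hα⟩
  simp only at h
  have h2 : ((pcN q a α : ℕ) : ZMod 7) = ((q ^ (a - α) * a.choose α : ℕ) : ZMod 7) := by
    rw [ZMod.natCast_eq_natCast_iff']
    exact h.symm
  rw [h2]
  unfold pc
  push_cast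
  rfl

lemma qq0_spec : ∀ i : Fin 10, qq q0 i 0 = 1 ∧ qq q0 i 1 = (nth 0 yL i : ℕ) ∧
    qq q0 i 2 = (nth 0 zL i : ℕ) ∧ nth 0 yL i < 7 ∧ nth 0 zL i < 7 := by
  decide +kernel

lemma cc0_spec : ∀ i : Fin 10, cc c0 i = (nth 0 cL i : ℕ) := by
  decide +kernel

lemma MNe_cast (D w : ℕ) (i : Fin 10) (a b α β : ℕ) (ha : a < 13) (hb : b < 13) (hα : α < 5)
    (hβ : β < 5) :
    ((MNe w i a b α β : ℕ) : ZMod 7) =
      (w : ZMod 7) * mono D (fun j => ((qq q0 i j : ℤ) : ZMod 7)) a b α β := by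
  obtain ⟨h0, h1, h2, h3, h4⟩ := qq0_spec i
  unfold MNe mono
  rw [ZMod.natCast_mod]
  push_cast
  rw [pc_cast _ h3 a ha α hα, pc_cast _ h4 b hb β hβ]
  simp only [h0, h1, h2]
  push_cast
  ring

lemma bb_le (i : Fin 10) : bb i ≤ 5 := by
  unfold bb; split_ifs <;> omega

lemma mn_cast (r : RL ⊕ RA) (c : IF ⊕ IG) :
    ((mn r c : ℕ) : ZMod 7) = ((Big (qq q0) (cc c0) r c : ℤ) : ZMod 7) := by
  have hm : ∀ (D : ℕ) (q : Fin 3 → ℤ) (a b α β : ℕ),
      ((mono D q a b α β : ℤ) : ZMod 7) = mono D (fun j => ((q j : ℤ) : ZMod 7)) a b α β := by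
    intro D q a b α β
    exact map_mono (Int.castRingHom (ZMod 7)) D q a b α β
  rcases r with ⟨i, α, β⟩ | ⟨i, α, β⟩ <;> rcases c with ⟨a, b⟩ | ⟨a, b⟩
  · have := bb_le i
    simp only [mn, Big, Matrix.fromBlocks_apply₁₁, JL, Matrix.of_apply]
    rw [MNe_cast 11 1 i a b α β (by omega) (by omega) (by omega) (by omega), hm]
    simp
  · simp [mn, Big]
  · have := bb_le i
    simp only [mn, Big, Matrix.fromBlocks_apply₂₁, JC, Matrix.of_apply]
    rw [MNe_cast 11 _ i a b α β (by omega) (by omega) (by omega) (by omega)]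
    rw [Int.cast_mul, hm, cc0_spec]
    simp
  · have := bb_le i
    simp only [mn, Big, Matrix.fromBlocks_apply₂₂, KA, Matrix.of_apply]
    rw [MNe_cast 12 1 i a b α β (by omega) (by omega) (by omega) (by omega), hm]
    simp

theorem cert : Cert := by
  refine ⟨Matrix.of fun j r => ((dig (acol r) (pos j) : ℕ) : ℤ), ?_⟩
  ext j c
  rw [Matrix.map_apply, Matrix.mul_apply, map_sum]
  have h1 : ∑ r, (Int.castRingHom (ZMod 7)) ((Matrix.of fun (j : IF ⊕ IG) (r : RL ⊕ RA) =>
      ((dig (acol r) (pos j) : ℕ) : ℤ)) j r * Big (qq q0) (cc c0) r c) =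
      ((∑ r, mn r c * dig (acol r) (pos j) : ℕ) : ZMod 7) := by
    push_cast
    apply Finset.sum_congr rfl
    intro r _
    rw [mn_cast]
    simp only [Matrix.of_apply, map_mul, eq_intCast]
    push_cast
    ring
  rw [h1, ← dig_tcol c (pos j) (pos_lt j)]
  have h2 := tcol_spec c j
  have h3 : ((dig (tcol c) (pos j) : ℕ) : ZMod 7) = ((if j = c then 1 else 0 : ℕ) : ZMod 7) := by
    rw [ZMod.natCast_eq_natCast_iff', h2]
    split_ifs <;> rfl
  rw [h3, Matrix.one_apply]
  split_ifs <;> simp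

end Pool.Agent.H72
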