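import Pool.Agent.H72.CertData

set_option autoImplicit false

namespace Pool.Agent.H72

/-- list lookup, convenient for kernel reduction -/
noncomputable def nth {α : Type} (d : α) (l : List α) : ℕ → α :=
  List.rec (fun _ => d) (fun x _ ih n => Nat.rec x (fun m _ => ih m) n) l

/-- sum of `f i` for `i < n` -/
noncomputable def sumTo (f : ℕ → ℕ) (n : ℕ) : ℕ := Nat.rec 0 (fun i acc => acc + f i) n

/-- conjunction of `f i` for `i < n` -/
noncomputable def allTo (f : ℕ → Bool) (n : ℕ) : Bool := Nat.rec true (fun i acc => (f i).and acc) n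

lemma sumTo_eq (f : ℕ → ℕ) (n : ℕ) : sumTo f n = ∑ i ∈ Finset.range n, f i := by
  induction n with
  | zero => rfl
  | succ n ih => rw [Finset.sum_range_succ, ← ih]; rfl

lemma allTo_iff (f : ℕ → Bool) (n : ℕ) : allTo f n = true ↔ ∀ i < n, f i = true := by
  induction n with
  | zero => simp [allTo]
  | succ n ih =>
    have : allTo f (n + 1) = (f n && allTo f n) := rfl
    rw [this, Bool.and_eq_true, ih]
    constructor
    · rintro ⟨h1, h2⟩ i hi
      rcases Nat.lt_succ_iff_lt_or_eq.mp hi with h | h
      · exact h2 i h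
      · rw [h]; exact h1
    · intro h
      exact ⟨h n (by omega), fun i hi => h i (by omega)⟩

/-- digit `n` of `x` in base 8192 -/
def dig (x n : ℕ) : ℕ := x / 8192 ^ n % 8192

noncomputable def bbN (i : ℕ) : ℕ := nth 4 [5] i

noncomputable def pcN (q a α : ℕ) : ℕ := (nth 0 tabs q) / 8 ^ (5 * a + α) % 8

noncomputable def MNe (w i a b α β : ℕ) : ℕ :=
  (w * pcN (nth 0 yL i) a α * pcN (nth 0 zL i) b β) % 7

noncomputable def AL (i α β : ℕ) : ℕ := nth 0 (nth [] (nth [] dataL i) α) β
noncomputable def AA (i α β : ℕ) : ℕ := nth 0 (nth [] (nth [] dataA i) α) β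

noncomputable def posF (a b : ℕ) : ℕ := nth 0 offFL a + b
noncomputable def posG (a b : ℕ) : ℕ := 78 + (nth 0 offGL a + b)

/-- column of the product, for a column of the first kind -/
noncomputable def TF (a b : ℕ) : ℕ :=
  sumTo (fun i => sumTo (fun α => sumTo (fun β => MNe 1 i a b α β * AL i α β)
    (bbN i - 1 - α)) (bbN i - 1)) 10 +
  sumTo (fun i => sumTo (fun α => sumTo (fun β => MNe (nth 0 cL i) i a b α β * AA i α β)
    (bbN i - α)) (bbN i)) 10

/-- column of the product, for a column of the second kind -/
noncomputable def TG (a b : ℕ) : ℕ :=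
  sumTo (fun i => sumTo (fun α => sumTo (fun β => MNe 1 i a b α β * AA i α β)
    (bbN i - α)) (bbN i)) 10

noncomputable def chkDig (x : ℕ) : Bool :=
  (Nat.blt x (8192 ^ 169)).and (allTo (fun n => Nat.ble (dig x n) 6) 169)

noncomputable def chk1L : Bool :=
  allTo (fun i => allTo (fun α => allTo (fun β => chkDig (AL i α β))
    (bbN i - 1 - α)) (bbN i - 1)) 10
noncomputable def chk1A : Bool :=
  allTo (fun i => allTo (fun α => allTo (fun β => chkDig (AA i α β))
    (bbN i - α)) (bbN i)) 10

/-- check that the digits of `x` are `δ_{n,p}` modulo 7. -/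
noncomputable def chkCol (x p : ℕ) : Bool :=
  allTo (fun n => Nat.beq (dig x n % 7) (Bool.rec 0 1 (Nat.beq n p))) 169

noncomputable def chk2F : Bool :=
  allTo (fun a => allTo (fun b => chkCol (TF a b) (posF a b)) (12 - a)) 12
noncomputable def chk2G : Bool :=
  allTo (fun a => allTo (fun b => chkCol (TG a b) (posG a b)) (13 - a)) 13

set_option maxRecDepth 100000 in
lemma chk1L_true : chk1L = true := by decide +kernel

set_option maxRecDepth 100000 in
lemma chk1A_true : chk1A = true := by decide +kernel

set_option maxRecDepth 100000 in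
lemma chk2F_true : chk2F = true := by decide +kernel

set_option maxRecDepth 100000 in
lemma chk2G_true : chk2G = true := by decide +kernel

end Pool.Agent.H72
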