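import Pool.Agent.H72.Det

set_option autoImplicit false

open MvPolynomial

namespace Pool.Agent.H72

section translate
variable {k : Type*} [Field k]

/-- translation `F(X) ↦ F(X + v)` -/
noncomputable def trans {n : ℕ} (v : Fin n → k) :
    MvPolynomial (Fin n) k →ₐ[k] MvPolynomial (Fin n) k :=
  aeval (fun i => X i + C (v i))

lemma eval_trans {n : ℕ} (v w : Fin n → k) (F : MvPolynomial (Fin n) k) :
    eval w (trans v F) = eval (w + v) F := by
  unfold trans
  induction F using MvPolynomial.induction_on with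
  | C a => simp
  | add p q hp hq => rw [map_add, map_add, map_add, hp, hq]
  | mul_X p i hp =>
    simp only [map_mul, hp, aeval_X, eval_X, map_add, eval_C, Pi.add_apply]

lemma trans_map_le {n : ℕ} (v w : Fin n → k) (r : ℕ) (F : MvPolynomial (Fin n) k)
    (h : F ∈ mI (w + v) ^ r) : trans v F ∈ mI w ^ r := by
  have h1 : (mI (w + v)).map (trans v).toRingHom ≤ mI w := by
    rw [Ideal.map_le_iff_le_comap]
    intro G hG
    rw [mem_mI] at hG
    rw [Ideal.mem_comap, mem_mI]
    exact (eval_trans v w G).trans hG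
  have h2 : trans v F ∈ ((mI (w + v)) ^ r).map (trans v).toRingHom :=
    Ideal.mem_map_of_mem _ h
  rw [Ideal.map_pow] at h2
  exact Ideal.pow_right_mono h1 r h2

lemma trans_trans {n : ℕ} (v : Fin n → k) (F : MvPolynomial (Fin n) k) :
    trans (-v) (trans v F) = F := by
  unfold trans
  rw [← AlgHom.comp_apply]
  have : (aeval (fun i => X i + C ((-v) i)) : MvPolynomial (Fin n) k →ₐ[k] _).comp
      (aeval (fun i => X i + C (v i))) = AlgHom.id k _ := by
    apply MvPolynomial.algHom_ext
    intro i
    simp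
  rw [this]; rfl

lemma mem_pow_iff {n : ℕ} (v : Fin n → k) (r : ℕ) (F : MvPolynomial (Fin n) k) :
    F ∈ mI v ^ r ↔ ∀ x : Fin n →₀ ℕ, Finsupp.degree x < r → coeff x (trans v F) = 0 := by
  rw [← mem_pow_idealOfVars_iff', ← mI_zero]
  constructor
  · intro h
    apply trans_map_le
    simpa using h
  · intro h
    have := trans_map_le (-v) v r (trans v F) (by simpa using h)
    rwa [trans_trans] at this

end translate

/-- coefficient of `X^β` in `(X+v)^α`. -/
noncomputable def cf {R : Type*} [CommRing R] {n : ℕ} (v : Fin n → R) (α β : Fin n →₀ ℕ) : R :=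
  coeff β (∏ j, (X j + C (v j) : MvPolynomial (Fin n) R) ^ (α j))

lemma cf_map {R S : Type*} [CommRing R] [CommRing S] (φ : R →+* S) {n : ℕ} (v : Fin n → R)
    (α β : Fin n →₀ ℕ) : φ (cf v α β) = cf (fun i => φ (v i)) α β := by
  unfold cf
  rw [← coeff_map]
  simp

variable {k : Type*} [Field k]

lemma coeff_trans_eq {n : ℕ} (v : Fin n → k) (F : MvPolynomial (Fin n) k) (β : Fin n →₀ ℕ)
    (s : Finset (Fin n →₀ ℕ)) (hs : F.support ⊆ s) :
    coeff β (trans v F) = ∑ α ∈ s, cf v α β * coeff α F := by
  have h1 : F = ∑ α ∈ s, monomial α (coeff α F) := by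
    conv_lhs => rw [F.as_sum]
    apply Finset.sum_subset hs
    intro x _ hx
    rw [notMem_support_iff] at hx
    rw [hx, monomial_zero]
  conv_lhs => rw [h1]
  rw [map_sum, coeff_sum]
  apply Finset.sum_congr rfl
  intro α _
  unfold trans cf
  rw [aeval_monomial, algebraMap_eq, coeff_C_mul, mul_comm]
  congr 2
  rw [Finsupp.prod_fintype _ _ (by simp)]

/-- Finite set of exponents of degree `d`. -/
noncomputable def expo (n d : ℕ) : Finset (Fin n →₀ ℕ) := Finset.finsuppAntidiag Finset.univ d

lemma mem_expo {n d : ℕ} (α : Fin n →₀ ℕ) : α ∈ expo n d ↔ Finsupp.degree α = d := by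
  unfold expo
  rw [Finset.mem_finsuppAntidiag]
  simp [Finsupp.degree_eq_sum]

/-- The system of linear conditions. -/
noncomputable def condMat {R : Type*} [CommRing R] {n s : ℕ} (d : ℕ) (m : Fin s → ℕ)
    (v : Fin s → Fin n → R) :
    Matrix ((i : Fin s) × (e : Fin (m i)) × (expo n e)) (expo n d) R :=
  fun r c => cf (v r.1) c.1 r.2.2.1

lemma exists_iff {n s : ℕ} (d : ℕ) (m : Fin s → ℕ) (v : Fin s → Fin n → k) :
    (∃ F : MvPolynomial (Fin n) k, F ≠ 0 ∧ F.IsHomogeneous d ∧ ∀ i, F ∈ mI (v i) ^ (m i)) ↔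
    ∃ a : expo n d → k, a ≠ 0 ∧ (condMat d m v).mulVec a = 0 := by
  classical
  constructor
  · rintro ⟨F, hF0, hFh, hF⟩
    refine ⟨fun c => coeff c.1 F, ?_, ?_⟩
    · intro h
      apply hF0
      ext α
      rw [coeff_zero]
      by_cases hα : Finsupp.degree α = d
      · exact congrFun h ⟨α, (mem_expo α).mpr hα⟩
      · exact hFh.coeff_eq_zero hα
    · ext ⟨i, e, β⟩
      have h1 := (mem_pow_iff (v i) (m i) F).mp (hF i) β.1
        (by rw [(mem_expo β.1).mp β.2]; exact e.2)
      rw [coeff_trans_eq (v i) F β.1 (expo n d) (by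
        intro α hα
        rw [mem_expo]
        by_contra hne
        exact (mem_support_iff.mp hα) (hFh.coeff_eq_zero hne))] at h1
      rw [← Finset.sum_coe_sort] at h1
      simpa [Matrix.mulVec, dotProduct, condMat] using h1
  · rintro ⟨a, ha0, ha⟩
    set F : MvPolynomial (Fin n) k := ∑ c : expo n d, monomial c.1 (a c) with hF
    have hcoeff : ∀ c : expo n d, coeff c.1 F = a c := by
      intro c
      rw [hF, coeff_sum, Finset.sum_eq_single c]
      · simp
      · intro b _ hb
        rw [coeff_monomial, if_neg]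
        exact fun h => hb (Subtype.ext h)
      · simp
    have hhom : F.IsHomogeneous d := by
      rw [hF]
      apply IsHomogeneous.sum
      intro c _
      apply isHomogeneous_monomial
      exact (mem_expo c.1).mp c.2
    refine ⟨F, ?_, hhom, ?_⟩
    · intro h0
      apply ha0
      ext c
      rw [← hcoeff c, h0]; simp
    · intro i
      rw [mem_pow_iff]
      intro β hβ
      rw [coeff_trans_eq (v i) F β (expo n d) (by
        intro α hα
        rw [mem_expo]
        by_contra hne
        exact (mem_support_iff.mp hα) (hhom.coeff_eq_zero hne))]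
      rw [← Finset.sum_coe_sort]
      have := congrFun ha ⟨i, ⟨Finsupp.degree β, hβ⟩, ⟨β, (mem_expo β).mpr rfl⟩⟩
      simp only [Matrix.mulVec, dotProduct, condMat, Pi.zero_apply] at this
      rw [← this]
      apply Finset.sum_congr rfl
      intro c _
      rw [hcoeff]

/-- Closedness: if the linear system is non-empty for the configurations `V(x)` with `G(x) ≠ 0`,
then it is non-empty for all configurations `V(x)`. -/
lemma closedness [Infinite k] {σ : Type*} {n s : ℕ} (d : ℕ) (m : Fin s → ℕ)
    (V : Fin s → Fin n → MvPolynomial σ k) (G : MvPolynomial σ k) (hG : G ≠ 0)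
    (h : ∀ x : σ → k, eval x G ≠ 0 →
      ∃ F : MvPolynomial (Fin n) k, F ≠ 0 ∧ F.IsHomogeneous d ∧
        ∀ i, F ∈ mI (fun j => eval x (V i j)) ^ (m i)) (x : σ → k) :
      ∃ F : MvPolynomial (Fin n) k, F ≠ 0 ∧ F.IsHomogeneous d ∧
        ∀ i, F ∈ mI (fun j => eval x (V i j)) ^ (m i) := by
  classical
  by_contra hcon
  rw [exists_iff d m (fun i j => eval x (V i j))] at hcon
  push Not at hcon
  -- injectivity
  have hinj : LinearMap.ker (Matrix.mulVecLin (condMat d m (fun i j => eval x (V i j)))) = ⊥ := by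
    rw [LinearMap.ker_eq_bot']
    intro a ha
    by_contra h0
    exact hcon a h0 (by simpa using ha)
  obtain ⟨g, hg⟩ := LinearMap.exists_leftInverse_of_injective _ hinj
  set A := LinearMap.toMatrix' g with hA
  have hAM : A * condMat d m (fun i j => eval x (V i j)) = 1 := by
    have := congrArg LinearMap.toMatrix' hg
    rw [LinearMap.toMatrix'_comp] at this
    rw [hA]
    have e1 : LinearMap.toMatrix' (Matrix.mulVecLin (condMat d m (fun i j => eval x (V i j)))) =
      condMat d m (fun i j => eval x (V i j)) := by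
      exact LinearMap.toMatrix'_toLin' _
    rw [e1] at this
    rw [this]
    exact LinearMap.toMatrix'_id
  set A' : Matrix (expo n d) ((i : Fin s) × (e : Fin (m i)) × (expo n e)) (MvPolynomial σ k) :=
    Matrix.map A (C : k → MvPolynomial σ k) with hA'
  set H : MvPolynomial σ k := Matrix.det (A' * condMat d m V) with hH
  have hev : ∀ y : σ → k, eval y H = (A * condMat d m (fun i j => eval y (V i j))).det := by
    intro y
    rw [hH, RingHom.map_det, RingHom.mapMatrix_apply, Matrix.map_mul]
    congr 2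
    · ext i j; simp [hA']
    · ext i j
      simp only [Matrix.map_apply, condMat]
      rw [cf_map]
  have hHx : eval x H = 1 := by rw [hev, hAM, Matrix.det_one]
  have hH0 : H ≠ 0 := by
    intro h0; rw [h0] at hHx; simp at hHx
  have hHG : H * G ≠ 0 := mul_ne_zero hH0 hG
  have : ∃ y : σ → k, eval y (H * G) ≠ 0 := by
    by_contra hc
    push Not at hc
    exact hHG (MvPolynomial.funext (fun y => by rw [hc y]; simp))
  obtain ⟨y, hy⟩ := this
  rw [map_mul] at hy
  have hy1 : eval y H ≠ 0 := left_ne_zero_of_mul hy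
  have hy2 : eval y G ≠ 0 := right_ne_zero_of_mul hy
  obtain ⟨a, ha0, ha⟩ := (exists_iff d m (fun i j => eval y (V i j))).mp (h y hy2)
  rw [hev] at hy1
  apply ha0
  apply Matrix.eq_zero_of_mulVec_eq_zero hy1
  rw [← Matrix.mulVec_mulVec, ha, Matrix.mulVec_zero]

end Pool.Agent.H72
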