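import Pool.Agent.H72.Mult

set_option autoImplicit false

open MvPolynomial

namespace Pool.Agent.H72

variable {k : Type*} [Field k]

lemma prod_mem_pow_card {R ι : Type*} [CommRing R] [DecidableEq ι] (s : Finset ι) (I : Ideal R)
    (p : ι → Prop) [DecidablePred p] (x : ι → R) (h : ∀ i ∈ s, p i → x i ∈ I) :
    ∏ i ∈ s, x i ∈ I ^ (s.filter p).card := by
  have h1 : ∏ i ∈ s, x i ∈ ∏ i ∈ s, (if p i then I else ⊤) := by
    apply Ideal.prod_mem_prod
    intro i hi
    by_cases hp : p i
    · simp [hp, h i hi hp]
    · simp [hp]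
  rw [Finset.prod_ite] at h1
  simp only [Finset.prod_const] at h1
  have : (⊤ : Ideal R) = 1 := Ideal.one_eq_top.symm
  rw [this, one_pow, mul_one] at h1
  exact h1

open Matrix in
/-- If the matrix `P` of polynomials has rank `≤ b` at `v`, its determinant vanishes to order
`≥ N - b` at `v`. -/
lemma det_mem {N n : ℕ} (P : Matrix (Fin N) (Fin N) (MvPolynomial (Fin n) k)) (v : Fin n → k)
    (b : ℕ) (h : (P.map (eval v)).rank ≤ b) : P.det ∈ mI v ^ (N - b) := by
  classical
  obtain ⟨L, L', D, hD⟩ :=
    Matrix.Pivot.exists_list_transvec_mul_diagonal_mul_list_transvec (P.map (eval v))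
  set A := (List.map Matrix.TransvectionStruct.toMatrix L).prod with hA
  set A' := (List.map Matrix.TransvectionStruct.toMatrix L').prod with hA'
  have hdA : A.det = 1 := Matrix.TransvectionStruct.det_toMatrix_prod L
  have hdA' : A'.det = 1 := Matrix.TransvectionStruct.det_toMatrix_prod L'
  have uA : IsUnit A.det := by rw [hdA]; exact isUnit_one
  have uA' : IsUnit A'.det := by rw [hdA']; exact isUnit_one
  set Q : Matrix (Fin N) (Fin N) (MvPolynomial (Fin n) k) :=
    (A⁻¹).map C * P * (A'⁻¹).map C with hQ
  have hdet : Q.det = P.det := by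
    have e1 : ((A⁻¹).map (C : k →+* MvPolynomial (Fin n) k)).det = 1 := by
      have := (RingHom.map_det (C : k →+* MvPolynomial (Fin n) k) A⁻¹)
      rw [RingHom.mapMatrix_apply] at this
      rw [← this, Matrix.det_nonsing_inv, hdA]
      simp
    have e2 : ((A'⁻¹).map (C : k →+* MvPolynomial (Fin n) k)).det = 1 := by
      have := (RingHom.map_det (C : k →+* MvPolynomial (Fin n) k) A'⁻¹)
      rw [RingHom.mapMatrix_apply] at this
      rw [← this, Matrix.det_nonsing_inv, hdA']
      simp
    rw [hQ, Matrix.det_mul, Matrix.det_mul, e1, e2, one_mul, mul_one]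
  have hQe : Q.map (eval v) = Matrix.diagonal D := by
    rw [hQ, Matrix.map_mul, Matrix.map_mul]
    have e1 : ((A⁻¹).map (C : k →+* MvPolynomial (Fin n) k)).map (eval v) = A⁻¹ := by
      ext i j; simp
    have e2 : ((A'⁻¹).map (C : k →+* MvPolynomial (Fin n) k)).map (eval v) = A'⁻¹ := by
      ext i j; simp
    rw [e1, e2, hD]
    rw [← Matrix.mul_assoc, ← Matrix.mul_assoc, Matrix.nonsing_inv_mul A uA, Matrix.one_mul,
      Matrix.mul_assoc, Matrix.mul_nonsing_inv A' uA', Matrix.mul_one]
  have hrank : (Matrix.diagonal D).rank ≤ b := by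
    have : (P.map (eval v)).rank = (Matrix.diagonal D).rank := by
      rw [hD, Matrix.rank_mul_eq_left_of_isUnit_det _ _ uA',
        Matrix.rank_mul_eq_right_of_isUnit_det _ _ uA]
    rw [← this]; exact h
  rw [Matrix.rank_diagonal] at hrank
  have hcard : N - b ≤ (Finset.univ.filter (fun i : Fin N => D i = 0)).card := by
    have h1 : (Finset.univ.filter (fun i : Fin N => D i = 0)).card +
        (Finset.univ.filter (fun i : Fin N => ¬ D i = 0)).card = N := by
      rw [Finset.card_filter_add_card_filter_not]; simp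
    have h2 : Fintype.card {i // D i ≠ 0} = (Finset.univ.filter (fun i : Fin N => ¬ D i = 0)).card := by
      rw [Fintype.card_subtype]
    omega
  rw [← hdet, Matrix.det_apply]
  refine Ideal.sum_mem _ (fun σ _ => ?_)
  have key : ∏ i, Q (σ i) i ∈ mI v ^ (N - b) := by
    have h1 := prod_mem_pow_card (Finset.univ : Finset (Fin N)) (mI v) (fun i => D (σ i) = 0)
      (fun i => Q (σ i) i) (by
        intro i _ hi
        rw [mem_mI]
        have := congrFun (congrFun hQe (σ i)) i
        rw [Matrix.map_apply] at this
        rw [this]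
        by_cases h : σ i = i
        · rw [h] at hi ⊢
          simp [hi]
        · simp [Matrix.diagonal_apply_ne _ h])
    refine Ideal.pow_le_pow_right (hcard.trans ?_) h1
    apply le_of_eq
    apply Finset.card_bij (fun i _ => σ⁻¹ i)
    · intro a ha
      simp only [Finset.mem_filter, Finset.mem_univ, true_and] at ha ⊢
      simpa using ha
    · intro a _ b _ hab
      exact (σ⁻¹).injective hab
    · intro b hb
      refine ⟨σ b, ?_, by simp⟩
      simpa using hb
  rcases Int.units_eq_one_or (Equiv.Perm.sign σ) with h | h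
  · rw [h, one_smul]; exact key
  · rw [h]
    simpa using key

end Pool.Agent.H72
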