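import Pool.Agent.H72.Closed

set_option autoImplicit false

open MvPolynomial

namespace Pool.Agent.H72

variable {k : Type*} [Field k]

/-- The determinant of a linear family of linear maps `U → H` gives a form vanishing to order
`≥ N - rank` at every point. -/
lemma determinantal {n s N : ℕ} {U H : Type*} [AddCommGroup U] [Module k U]
    [AddCommGroup H] [Module k H] [FiniteDimensional k U] [FiniteDimensional k H]
    (hU : Module.finrank k U = N) (hH : Module.finrank k H = N)
    (M : (Fin n → k) →ₗ[k] (U →ₗ[k] H)) (x₀ : Fin n → k)
    (hx₀ : Function.Injective (M x₀)) (v : Fin s → Fin n → k) (b : Fin s → ℕ)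
    (hb : ∀ i, Module.finrank k (LinearMap.range (M (v i))) ≤ b i) :
    ∃ F : MvPolynomial (Fin n) k, F ≠ 0 ∧ F.IsHomogeneous N ∧ ∀ i, F ∈ mI (v i) ^ (N - b i) := by
  classical
  let bU : Module.Basis (Fin N) k U := Module.finBasisOfFinrankEq k U hU
  let bH : Module.Basis (Fin N) k H := Module.finBasisOfFinrankEq k H hH
  let A : (Fin n → k) →ₗ[k] Matrix (Fin N) (Fin N) k :=
    (LinearMap.toMatrix bU bH).toLinearMap ∘ₗ M
  let P : Matrix (Fin N) (Fin N) (MvPolynomial (Fin n) k) :=
    Matrix.of fun a c => ∑ j, C (A (Pi.single j 1) a c) * X j
  have hP : ∀ x : Fin n → k, P.map (eval x) = A x := by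
    intro x
    ext a c
    have hx : x = ∑ j, x j • (Pi.single j 1 : Fin n → k) := by
      conv_lhs => rw [← Finset.univ_sum_single x]
      apply Finset.sum_congr rfl
      intro j _
      ext l
      by_cases h : l = j
      · subst h; simp
      · simp [h]
    conv_rhs => rw [hx]
    rw [map_sum, Matrix.sum_apply]
    have e : (P.map (eval x)) a c = ∑ j, A (Pi.single j 1) a c * x j := by
      show eval x (P a c) = _
      simp only [P, Matrix.of_apply, map_sum, map_mul, eval_C, eval_X]
    rw [e]
    apply Finset.sum_congr rfl
    intro j _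
    rw [map_smul, Matrix.smul_apply, smul_eq_mul, mul_comm]
  refine ⟨P.det, ?_, ?_, ?_⟩
  · intro h0
    have h1 : eval x₀ P.det = 0 := by rw [h0]; simp
    rw [RingHom.map_det, RingHom.mapMatrix_apply, hP] at h1
    have h2 : IsUnit (A x₀) := by
      have hbij : Function.Bijective (M x₀) := by
        refine ⟨hx₀, ?_⟩
        exact (LinearMap.injective_iff_surjective_of_finrank_eq_finrank (hU.trans hH.symm)).mp hx₀
      have : Function.Injective (A x₀).mulVec := by
        intro y z hyz
        have e := LinearMap.toMatrix_mulVec_repr bU bH (M x₀)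
        have hy := e (bU.equivFun.symm y)
        have hz := e (bU.equivFun.symm z)
        have hyz' : (A x₀).mulVec y = (A x₀).mulVec z := hyz
        have ey : (bU.repr (bU.equivFun.symm y) : Fin N → k) = y := by
          have := bU.equivFun.apply_symm_apply y
          rwa [Module.Basis.equivFun_apply] at this
        have ez : (bU.repr (bU.equivFun.symm z) : Fin N → k) = z := by
          have := bU.equivFun.apply_symm_apply z
          rwa [Module.Basis.equivFun_apply] at this
        rw [ey] at hy
        rw [ez] at hz
        have h3 : (bH.repr (M x₀ (bU.equivFun.symm y)) : Fin N → k) =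
            bH.repr (M x₀ (bU.equivFun.symm z)) := by
          rw [← hy, ← hz]
          exact hyz'
        have h4 := bH.repr.injective (DFunLike.coe_injective h3)
        have h5 := hx₀ h4
        exact bU.equivFun.symm.injective h5
      exact Matrix.mulVec_injective_iff_isUnit.mp this
    rw [Matrix.isUnit_iff_isUnit_det] at h2
    rw [h1] at h2
    exact not_isUnit_zero h2
  · rw [Matrix.det_apply]
    apply IsHomogeneous.sum
    intro σ _
    have h1 : (∏ i, P (σ i) i).IsHomogeneous N := by
      have := IsHomogeneous.prod (Finset.univ : Finset (Fin N)) (fun i => P (σ i) i) (fun _ => 1)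
        (by
          intro i _
          show (∑ j, C (A (Pi.single j 1) (σ i) i) * X j : MvPolynomial (Fin n) k).IsHomogeneous 1
          apply IsHomogeneous.sum
          intro j _
          have := (isHomogeneous_C (Fin n) (A (Pi.single j 1) (σ i) i)).mul (isHomogeneous_X k j)
          simpa using this)
      simpa using this
    rcases Int.units_eq_one_or (Equiv.Perm.sign σ) with h | h
    · rw [h, one_smul]; exact h1
    · rw [h]
      rw [Units.neg_smul, one_smul]
      exact h1.neg
  · intro i
    apply det_mem
    rw [hP]
    refine le_trans (le_of_eq ?_) (hb i)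
    show (LinearMap.toMatrix bU bH (M (v i))).rank = _
    rw [Matrix.rank_eq_finrank_range_toLin (LinearMap.toMatrix bU bH (M (v i))) bH bU]
    rw [Matrix.toLin_toMatrix]

end Pool.Agent.H72
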