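import Pool.Agent.H72.Plane

set_option autoImplicit false

open MvPolynomial

namespace Pool.Agent.H72

variable {k : Type*} [Field k]

/-- projection to the jets at the point `i` -/
noncomputable def prj (i : Fin 10) : (RA → k) →ₗ[k] (RA → k) :=
  LinearMap.pi (fun r => if r.1 = i then LinearMap.proj r else 0)

lemma prj_apply (i : Fin 10) (h : RA → k) (r : RA) : prj i h r = if r.1 = i then h r else 0 := by
  unfold prj
  rw [LinearMap.pi_apply]
  split_ifs <;> simp

noncomputable abbrev UU (Q : Fin 10 → Fin 3 → k) : Submodule k (IF → k) :=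
  LinearMap.ker (JL Q).mulVecLin

noncomputable abbrev HH (Q : Fin 10 → Fin 3 → k) : Type _ :=
  (RA → k) ⧸ LinearMap.range (KA Q).mulVecLin

/-- the map `M_i : U → H`. -/
noncomputable def M1 (Q : Fin 10 → Fin 3 → k) (i : Fin 10) : UU Q →ₗ[k] HH Q :=
  (LinearMap.range (KA Q).mulVecLin).mkQ ∘ₗ prj i ∘ₗ (JA Q).mulVecLin ∘ₗ (UU Q).subtype

lemma M1_apply (Q : Fin 10 → Fin 3 → k) (i : Fin 10) (f : UU Q) :
    M1 Q i f = (LinearMap.range (KA Q).mulVecLin).mkQ (prj i ((JA Q).mulVec f.1)) := by
  unfold M1
  rw [LinearMap.comp_apply, LinearMap.comp_apply, LinearMap.comp_apply,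
    Matrix.mulVecLin_apply, Submodule.subtype_apply]

lemma sum_prj (w : Fin 10 → k) (h : RA → k) :
    ∑ i, w i • prj i h = fun r => w r.1 * h r := by
  ext r
  rw [Finset.sum_apply, Finset.sum_eq_single r.1]
  · rw [Pi.smul_apply, prj_apply, if_pos rfl, smul_eq_mul]
  · intro b _ hb
    rw [Pi.smul_apply, prj_apply, if_neg (Ne.symm hb), smul_zero]
  · simp

lemma M1_relation (Q : Fin 10 → Fin 3 → k) (l : Fin 3 → k) :
    ∑ i, (l 0 * Q i 0 + l 1 * Q i 1 + l 2 * Q i 2) • M1 Q i = 0 := by
  ext f
  rw [LinearMap.sum_apply]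
  simp only [LinearMap.smul_apply, M1_apply, LinearMap.zero_apply]
  simp only [← map_smul]
  rw [← map_sum]
  simp only [map_smul (prj _)]
  rw [sum_prj (fun i => l 0 * Q i 0 + l 1 * Q i 1 + l 2 * Q i 2)]
  rw [Submodule.mkQ_apply, Submodule.Quotient.mk_eq_zero]
  have hf : (JL Q).mulVec f.1 = 0 := LinearMap.mem_ker.mp f.2
  refine ⟨lmul l f.1, ?_⟩
  ext r
  rw [Matrix.mulVecLin_apply, KA_lmul Q l f.1 hf r]

lemma sum10 {M : Type*} [AddCommMonoid M] (g : Fin 10 → M) :
    ∑ i, g i = ∑ i : Fin 7, g (Fin.castLE (by norm_num) i) + g 7 + g 8 + g 9 := by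
  rw [Fin.sum_univ_castSucc, Fin.sum_univ_castSucc, Fin.sum_univ_castSucc]
  rfl

/-- the linear family `x ↦ M(x)` on `k^7` -/
noncomputable def MM (Q : Fin 10 → Fin 3 → k) : (Fin 7 → k) →ₗ[k] (UU Q →ₗ[k] HH Q) :=
  ∑ i : Fin 7, (LinearMap.proj i : (Fin 7 → k) →ₗ[k] k).smulRight
    (M1 Q (Fin.castLE (by norm_num) i))

lemma MM_apply (Q : Fin 10 → Fin 3 → k) (x : Fin 7 → k) :
    MM Q x = ∑ i : Fin 7, x i • M1 Q (Fin.castLE (by norm_num) i) := by
  unfold MM
  rw [LinearMap.sum_apply]
  rfl

lemma qq_lt (q : Fin 7 → Fin 3 → k) (i : Fin 7) : qq q (Fin.castLE (by norm_num) i) = q i := by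
  unfold qq
  rw [dif_pos (by simp)]
  rfl

lemma MM_VV (q : Fin 7 → Fin 3 → k) (i : Fin 10) : MM (qq q) (VV q i) = M1 (qq q) i := by
  rw [MM_apply]
  by_cases h : (i : ℕ) < 7
  · have hV : VV q i = Pi.single ⟨i, h⟩ 1 := by unfold VV; rw [dif_pos h]
    rw [hV, Finset.sum_eq_single ⟨i, h⟩]
    · simp
    · intro b _ hb
      rw [Pi.single_eq_of_ne hb, zero_smul]
    · simp
  · have hq7 : qq q 7 = ![1, 0, 0] := by simp [qq]
    have hq8 : qq q 8 = ![1, 1, 0] := by simp [qq]
    have hq9 : qq q 9 = ![1, 0, 1] := by simp [qq]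
    have hi : i = 7 ∨ i = 8 ∨ i = 9 := by
      have := i.2
      have h' : (i : ℕ) = 7 ∨ (i : ℕ) = 8 ∨ (i : ℕ) = 9 := by omega
      rcases h' with h' | h' | h'
      · left; exact Fin.ext h'
      · right; left; exact Fin.ext h'
      · right; right; exact Fin.ext h'
    rcases hi with rfl | rfl | rfl
    · have hr := M1_relation (qq q) ![-1, 1, 1]
      rw [sum10] at hr
      simp only [hq7, hq8, hq9, qq_lt] at hr
      simp at hr
      have hr' := eq_neg_of_add_eq_zero_left hr
      have hV : VV q 7 = fun j => - q j 0 + q j 1 + q j 2 := by simp [VV]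
      rw [hV]
      refine hr'.trans ?_
      ext f
      simp
    · have hr := M1_relation (qq q) ![0, -1, 0]
      rw [sum10] at hr
      simp only [hq7, hq8, hq9, qq_lt] at hr
      simp at hr
      have hr' := eq_neg_of_add_eq_zero_left hr
      have hV : VV q 8 = fun j => - q j 1 := by simp [VV]
      rw [hV]
      refine hr'.trans ?_
      ext f
      simp
    · have hr := M1_relation (qq q) ![0, 0, -1]
      rw [sum10] at hr
      simp only [hq7, hq8, hq9, qq_lt] at hr
      simp at hr
      have hr' := eq_neg_of_add_eq_zero_left hr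
      have hV : VV q 9 = fun j => - q j 2 := by simp [VV]
      rw [hV]
      refine hr'.trans ?_
      ext f
      simp

/-- embedding of top jets at the point `i` -/
noncomputable def topJ (i : Fin 10) : (Fin (bb i) → k) →ₗ[k] (RA → k) :=
  ∑ α : Fin (bb i), (LinearMap.proj α : (Fin (bb i) → k) →ₗ[k] k).smulRight
    (Pi.single (⟨i, α, ⟨bb i - 1 - α, by omega⟩⟩ : RA) (1 : k))

lemma finrank_M1 (Q : Fin 10 → Fin 3 → k) (i : Fin 10) :
    Module.finrank k (LinearMap.range (M1 Q i)) ≤ bb i := by
  classical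
  have hle : LinearMap.range (M1 Q i) ≤
      LinearMap.range ((LinearMap.range (KA Q).mulVecLin).mkQ ∘ₗ topJ i) := by
    rintro _ ⟨f, rfl⟩
    rw [M1_apply]
    refine ⟨fun α => (JA Q).mulVec f.1 ⟨i, α, ⟨bb i - 1 - α, by omega⟩⟩, ?_⟩
    rw [LinearMap.comp_apply]
    congr 1
    have hf : (JL Q).mulVec f.1 = 0 := LinearMap.mem_ker.mp f.2
    ext ⟨j, α, β⟩
    rw [prj_apply]
    unfold topJ
    rw [LinearMap.sum_apply, Finset.sum_apply]
    simp only [LinearMap.smulRight_apply, LinearMap.proj_apply, Pi.smul_apply, smul_eq_mul]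
    by_cases hj : j = i
    · subst hj
      rw [if_pos rfl]
      by_cases hβ : (β : ℕ) = bb j - 1 - α
      · have hβ' : β = ⟨bb j - 1 - α, by omega⟩ := Fin.ext hβ
        rw [Finset.sum_eq_single α]
        · rw [← hβ']
          simp
        · intro γ _ hγ
          rw [Pi.single_eq_of_ne, mul_zero]
          intro h
          rw [Sigma.mk.injEq] at h
          have h2 := eq_of_heq h.2
          rw [Sigma.mk.injEq] at h2
          exact hγ h2.1.symm
        · simp
      · rw [Finset.sum_eq_zero]
        · have h1 := congrFun hf ⟨j, ⟨α, by have := α.2; have := β.2; omega⟩,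
            ⟨β, by have := α.2; have := β.2; simp only; omega⟩⟩
          exact h1.symm
        · intro γ _
          rw [Pi.single_eq_of_ne, mul_zero]
          intro h
          rw [Sigma.mk.injEq] at h
          have h2 := eq_of_heq h.2
          rw [Sigma.mk.injEq] at h2
          obtain ⟨h3, h4⟩ := h2
          subst h3
          have h5 := eq_of_heq h4
          apply hβ
          rw [h5]
    · rw [if_neg hj]
      rw [Finset.sum_eq_zero]
      intro γ _
      rw [Pi.single_eq_of_ne, mul_zero]
      intro h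
      rw [Sigma.mk.injEq] at h
      exact hj h.1
  calc Module.finrank k (LinearMap.range (M1 Q i)) ≤ _ := Submodule.finrank_mono hle
    _ ≤ Module.finrank k (Fin (bb i) → k) := LinearMap.finrank_range_le _
    _ = bb i := by simp

lemma card_IF : Fintype.card IF = 78 := by
  simp [Fintype.card_sigma]; decide
lemma card_IG : Fintype.card IG = 91 := by
  simp [Fintype.card_sigma]; decide
lemma card_RL : Fintype.card RL = 64 := by
  simp [Fintype.card_sigma]; decide
lemma card_RA : Fintype.card RA = 105 := by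
  simp [Fintype.card_sigma]; decide

theorem eff_of_inj (q : Fin 7 → Fin 3 → k) (c : Fin 7 → k)
    (hinj : ∀ x : IF ⊕ IG → k, (Big (qq q) (cc c)).mulVec x = 0 → x = 0) :
    ∃ F : MvPolynomial (Fin 7) k, F ≠ 0 ∧ F.IsHomogeneous 14 ∧
      ∀ i, F ∈ mI (VV q i) ^ (14 - bb i) := by
  set Q := qq q with hQ
  have hinj' : ∀ (f : IF → k) (g : IG → k), (JL Q).mulVec f = 0 →
      (JC Q (cc c)).mulVec f + (KA Q).mulVec g = 0 → f = 0 ∧ g = 0 := by
    intro f g h1 h2
    have := hinj (Sum.elim f g) (by
      unfold Big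
      rw [Matrix.fromBlocks_mulVec]
      ext r
      rcases r with r | r
      · simpa using congrFun h1 r
      · simpa using congrFun h2 r)
    constructor
    · ext a; exact congrFun this (Sum.inl a)
    · ext a; exact congrFun this (Sum.inr a)
  have kinj : Function.Injective (KA Q).mulVecLin := by
    rw [← LinearMap.ker_eq_bot, LinearMap.ker_eq_bot']
    intro g hg
    exact (hinj' 0 g (by simp) (by simpa using hg)).2
  have hH : Module.finrank k (HH Q) = 14 := by
    have h1 := Submodule.finrank_quotient_add_finrank (LinearMap.range (KA Q).mulVecLin)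
    rw [LinearMap.finrank_range_of_inj kinj] at h1
    rw [Module.finrank_fintype_fun_eq_card, Module.finrank_fintype_fun_eq_card, card_RA,
      card_IG] at h1
    show Module.finrank k ((RA → k) ⧸ LinearMap.range (KA Q).mulVecLin) = 14
    omega
  have hMinj : Function.Injective (MM Q c) := by
    rw [← LinearMap.ker_eq_bot, LinearMap.ker_eq_bot']
    intro f hf
    rw [MM_apply, LinearMap.sum_apply] at hf
    simp only [LinearMap.smul_apply, M1_apply] at hf
    simp only [← map_smul] at hf
    rw [← map_sum] at hf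
    rw [Submodule.mkQ_apply, Submodule.Quotient.mk_eq_zero] at hf
    obtain ⟨g, hg⟩ := hf
    have h1 : (JL Q).mulVec f.1 = 0 := LinearMap.mem_ker.mp f.2
    have h2 : (JC Q (cc c)).mulVec f.1 = (KA Q).mulVec g := by
      rw [← Matrix.mulVecLin_apply (KA Q), hg]
      have h3 : ∑ i : Fin 7, prj (Fin.castLE (by norm_num) i) (c i • (JA Q).mulVec f.1) =
        ∑ i : Fin 10, (cc c i) • prj i ((JA Q).mulVec f.1) := by
        rw [sum10]
        have e7 : cc c 7 = 0 := by simp [cc]
        have e8 : cc c 8 = 0 := by simp [cc]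
        have e9 : cc c 9 = 0 := by simp [cc]
        rw [e7, e8, e9]
        simp only [zero_smul, add_zero]
        apply Finset.sum_congr rfl
        intro i _
        rw [map_smul]
        congr 1
        unfold cc
        rw [dif_pos (by simp)]
        rfl
      rw [h3, sum_prj]
      ext r
      simp only [Matrix.mulVec, dotProduct, JC, JA, Matrix.of_apply]
      rw [Finset.mul_sum]
      exact Finset.sum_congr rfl (fun a _ => by ring)
    have := hinj' f.1 (-g) h1 (by rw [h2, Matrix.mulVec_neg]; simp)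
    exact Subtype.ext this.1
  have hU : Module.finrank k (UU Q) = 14 := by
    apply le_antisymm
    · have := LinearMap.finrank_le_finrank_of_injective hMinj
      rwa [hH] at this
    · have h1 := LinearMap.finrank_range_add_finrank_ker (JL Q).mulVecLin
      have h2 : Module.finrank k (LinearMap.range (JL Q).mulVecLin) ≤ 64 := by
        have := Submodule.finrank_le (LinearMap.range (JL Q).mulVecLin)
        rwa [Module.finrank_fintype_fun_eq_card, card_RL] at this
      rw [Module.finrank_fintype_fun_eq_card, card_IF] at h1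
      show 14 ≤ Module.finrank k (LinearMap.ker (JL Q).mulVecLin)
      omega
  exact determinantal hU hH (MM Q) c hMinj (VV q) bb (fun i => by
    rw [MM_VV]; exact finrank_M1 Q i)

end Pool.Agent.H72
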