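import Mathlib

/-!
Order of vanishing of forms at points, linear pull-backs, determinants of matrices of
linear forms, and the closedness (semicontinuity) lemma.
-/

set_option autoImplicit false

open MvPolynomial

namespace Pool.Agent.H72

variable {k : Type*} [Field k]

/-- The ideal of all polynomials vanishing at the vector `v`. -/
noncomputable abbrev mI {n : ℕ} (v : Fin n → k) : Ideal (MvPolynomial (Fin n) k) :=
  vanishingIdeal k {v}

lemma mem_mI {n : ℕ} (v : Fin n → k) (F : MvPolynomial (Fin n) k) :
    F ∈ mI v ↔ eval v F = 0 := by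
  rw [mem_vanishingIdeal_singleton_iff]
  rw [MvPolynomial.aeval_eq_eval]

/-- Substitution of the linear map with matrix `T`. -/
noncomputable def pull {m n : ℕ} (T : Matrix (Fin m) (Fin n) k) :
    MvPolynomial (Fin m) k →ₐ[k] MvPolynomial (Fin n) k :=
  aeval (fun i => ∑ j, C (T i j) * X j)

lemma eval_pull {m n : ℕ} (T : Matrix (Fin m) (Fin n) k) (v : Fin n → k)
    (F : MvPolynomial (Fin m) k) : eval v (pull T F) = eval (T.mulVec v) F := by
  unfold pull
  induction F using MvPolynomial.induction_on with
  | C a => simp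
  | add p q hp hq => rw [map_add, map_add, map_add, hp, hq]
  | mul_X p i hp =>
    simp only [map_mul, hp, aeval_X, eval_X]
    congr 1
    simp [Matrix.mulVec, dotProduct]

lemma pull_mem {m n : ℕ} (T : Matrix (Fin m) (Fin n) k) (v : Fin n → k)
    (F : MvPolynomial (Fin m) k) (r : ℕ) (h : F ∈ mI (T.mulVec v) ^ r) :
    pull T F ∈ mI v ^ r := by
  have h1 : (mI (T.mulVec v)).map (pull T).toRingHom ≤ mI v := by
    rw [Ideal.map_le_iff_le_comap]
    intro G hG
    rw [mem_mI] at hG
    rw [Ideal.mem_comap, mem_mI]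
    exact (eval_pull T v G).trans hG
  have h2 : pull T F ∈ ((mI (T.mulVec v)) ^ r).map (pull T).toRingHom :=
    Ideal.mem_map_of_mem _ h
  rw [Ideal.map_pow] at h2
  exact Ideal.pow_right_mono h1 r h2

lemma pull_homog {m n : ℕ} (T : Matrix (Fin m) (Fin n) k)
    (F : MvPolynomial (Fin m) k) (d : ℕ) (h : F.IsHomogeneous d) :
    (pull T F).IsHomogeneous d := by
  have := h.aeval (fun i => ∑ j, (C (T i j) * X j : MvPolynomial (Fin n) k)) (n := 1)
    (fun i => IsHomogeneous.sum _ _ _ (fun j _ => by
      have := (isHomogeneous_C (Fin n) (T i j)).mul (isHomogeneous_X k j)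
      simpa using this))
  rw [one_mul] at this
  exact this

lemma pull_ne_zero [Infinite k] {m n : ℕ} (T : Matrix (Fin m) (Fin n) k)
    (hT : Function.Surjective T.mulVec)
    (F : MvPolynomial (Fin m) k) (h : F ≠ 0) : pull T F ≠ 0 := by
  intro h0
  apply h
  apply MvPolynomial.funext
  intro x
  obtain ⟨y, rfl⟩ := hT x
  rw [← eval_pull, h0]
  simp

lemma mI_zero (n : ℕ) : mI (0 : Fin n → k) = idealOfVars (Fin n) k := by
  ext F
  rw [mem_mI]
  have := mem_pow_idealOfVars_iff' (σ := Fin n) (R := k) 1 F
  rw [pow_one] at this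
  rw [this]
  constructor
  · intro h x hx
    have hx0 : x = 0 := by
      have : Finsupp.degree x = 0 := by omega
      exact (Finsupp.degree_eq_zero_iff x).mp this
    subst hx0
    have h' : constantCoeff F = 0 := by
      rw [← h, MvPolynomial.eval_zero]
    simpa [constantCoeff_eq] using h'
  · intro h
    have := h 0 (by simp)
    rw [MvPolynomial.eval_zero, constantCoeff_eq]
    exact this

lemma homog_mem_zero {n d : ℕ} (F : MvPolynomial (Fin n) k) (h : F.IsHomogeneous d) :
    F ∈ mI (0 : Fin n → k) ^ d := by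
  rw [mI_zero, mem_pow_idealOfVars_iff']
  intro x hx
  exact h.coeff_eq_zero (by omega)

end Pool.Agent.H72
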