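import Pool.Agent.H72.Determinantal

/-!
The linear algebra of plane forms of degree 11 and 12 with assigned jets at ten points.
-/

set_option autoImplicit false

open MvPolynomial

namespace Pool.Agent.H72

/-- exponents of monomials of degree 11: `(a,b)` stands for `X^(11-a-b) Y^a Z^b` -/
abbrev IF : Type := (a : Fin 12) × Fin (12 - a)
/-- exponents of monomials of degree 12 -/
abbrev IG : Type := (a : Fin 13) × Fin (13 - a)
/-- the multiplicities `(5, 4^9)` -/
def bb (i : Fin 10) : ℕ := if i = 0 then 5 else 4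
/-- jets of order `< b_i - 1` at the ten points -/
abbrev RL : Type := (i : Fin 10) × (α : Fin (bb i - 1)) × Fin (bb i - 1 - α)
/-- jets of order `< b_i` at the ten points -/
abbrev RA : Type := (i : Fin 10) × (α : Fin (bb i)) × Fin (bb i - α)

section ring
variable {R : Type*} [CommRing R]

/-- coefficient of `s^α` in `(q+s)^a` -/
def pc (q : R) (a α : ℕ) : R := q ^ (a - α) * (a.choose α : R)

lemma pc_zero (q : R) (a : ℕ) : pc q (a + 1) 0 = q * pc q a 0 := by
  simp [pc, pow_succ, mul_comm]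

lemma pc_succ (q : R) (a α : ℕ) : pc q (a + 1) (α + 1) = q * pc q a (α + 1) + pc q a α := by
  unfold pc
  rw [Nat.choose_succ_succ]
  rcases lt_trichotomy a α with h | h | h
  · rw [Nat.choose_eq_zero_of_lt h, Nat.choose_eq_zero_of_lt (by omega : a < α + 1)]
    simp
  · subst h
    simp
  · have e1 : a + 1 - (α + 1) = a - α := by omega
    have e2 : a - α = (a - (α + 1)) + 1 := by omega
    rw [e1]
    push_cast
    rw [e2, pow_succ]
    ring

/-- coefficient of `s^α t^β` of the monomial `X^(D-a-b) Y^a Z^b` at `(q0, q1 + s, q2 + t)` -/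
def mono (D : ℕ) (q : Fin 3 → R) (a b α β : ℕ) : R :=
  q 0 ^ (D - a - b) * pc (q 1) a α * pc (q 2) b β

lemma mono_e0 (q : Fin 3 → R) (a b α β : ℕ) (h : a + b ≤ 11) :
    mono 12 q a b α β = q 0 * mono 11 q a b α β := by
  unfold mono
  have : 12 - a - b = (11 - a - b) + 1 := by omega
  rw [this, pow_succ]; ring

lemma mono_e1_zero (q : Fin 3 → R) (a b β : ℕ) :
    mono 12 q (a + 1) b 0 β = q 1 * mono 11 q a b 0 β := by
  unfold mono
  have : 12 - (a + 1) - b = 11 - a - b := by omega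
  rw [this, pc_zero]; ring

lemma mono_e1_succ (q : Fin 3 → R) (a b α β : ℕ) :
    mono 12 q (a + 1) b (α + 1) β = q 1 * mono 11 q a b (α + 1) β + mono 11 q a b α β := by
  unfold mono
  have : 12 - (a + 1) - b = 11 - a - b := by omega
  rw [this, pc_succ]; ring

lemma mono_e2_zero (q : Fin 3 → R) (a b α : ℕ) :
    mono 12 q a (b + 1) α 0 = q 2 * mono 11 q a b α 0 := by
  unfold mono
  have : 12 - a - (b + 1) = 11 - a - b := by omega
  rw [this, pc_zero]; ring

lemma mono_e2_succ (q : Fin 3 → R) (a b α β : ℕ) :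
    mono 12 q a (b + 1) α (β + 1) = q 2 * mono 11 q a b α (β + 1) + mono 11 q a b α β := by
  unfold mono
  have : 12 - a - (b + 1) = 11 - a - b := by omega
  rw [this, pc_succ]; ring

/-- low jets of degree 11 forms -/
def JL (q : Fin 10 → Fin 3 → R) : Matrix RL IF R :=
  Matrix.of fun r c => mono 11 (q r.1) c.1 c.2 r.2.1 r.2.2
/-- all jets of degree 11 forms -/
def JA (q : Fin 10 → Fin 3 → R) : Matrix RA IF R :=
  Matrix.of fun r c => mono 11 (q r.1) c.1 c.2 r.2.1 r.2.2
/-- all jets of degree 12 forms -/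
def KA (q : Fin 10 → Fin 3 → R) : Matrix RA IG R :=
  Matrix.of fun r c => mono 12 (q r.1) c.1 c.2 r.2.1 r.2.2
/-- jets of degree 11 forms weighted by `c` -/
def JC (q : Fin 10 → Fin 3 → R) (c : Fin 10 → R) : Matrix RA IF R :=
  Matrix.of fun r a => c r.1 * mono 11 (q r.1) a.1 a.2 r.2.1 r.2.2

/-- the big matrix -/
def Big (q : Fin 10 → Fin 3 → R) (c : Fin 10 → R) : Matrix (RL ⊕ RA) (IF ⊕ IG) R :=
  Matrix.fromBlocks (JL q) 0 (JC q c) (KA q)

/-- extension of seven points by three fixed points -/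
def qq (q : Fin 7 → Fin 3 → R) : Fin 10 → Fin 3 → R :=
  fun i => if h : (i : ℕ) < 7 then q ⟨i, h⟩ else
    if (i : ℕ) = 7 then ![1, 0, 0] else if (i : ℕ) = 8 then ![1, 1, 0] else ![1, 0, 1]

/-- extension of seven scalars by zero -/
def cc (c : Fin 7 → R) : Fin 10 → R :=
  fun i => if h : (i : ℕ) < 7 then c ⟨i, h⟩ else 0

/-- the ten vectors in `k^7` Gale dual to the ten vectors `qq q` in `k^3`. -/
def VV (q : Fin 7 → Fin 3 → R) : Fin 10 → Fin 7 → R :=
  fun i => if h : (i : ℕ) < 7 then Pi.single ⟨i, h⟩ 1 else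
    if (i : ℕ) = 7 then (fun j => - q j 0 + q j 1 + q j 2) else
    if (i : ℕ) = 8 then (fun j => - q j 1) else (fun j => - q j 2)

end ring

lemma map_mono {R S : Type*} [CommRing R] [CommRing S] (φ : R →+* S) (D : ℕ) (q : Fin 3 → R)
    (a b α β : ℕ) : φ (mono D q a b α β) = mono D (fun j => φ (q j)) a b α β := by
  simp [mono, pc]

lemma Big_map {R S : Type*} [CommRing R] [CommRing S] (φ : R →+* S)
    (q : Fin 10 → Fin 3 → R) (c : Fin 10 → R) :
    (Big q c).map φ = Big (fun i j => φ (q i j)) (fun i => φ (c i)) := by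
  ext r a
  rcases r with r | r <;> rcases a with a | a <;>
    simp [Big, JL, JC, KA, map_mono]

lemma qq_map {R S : Type*} [CommRing R] [CommRing S] (φ : R →+* S) (q : Fin 7 → Fin 3 → R) :
    (fun i j => φ (qq q i j)) = qq (fun i j => φ (q i j)) := by
  ext i j
  unfold qq
  split_ifs
  · rfl
  all_goals fin_cases j <;> simp

lemma cc_map {R S : Type*} [CommRing R] [CommRing S] (φ : R →+* S) (c : Fin 7 → R) :
    (fun i => φ (cc c i)) = cc (fun i => φ (c i)) := by
  ext i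
  unfold cc
  split_ifs
  · rfl
  · simp

section field
variable {k : Type*} [Field k]

/-- index maps `IF → IG` corresponding to multiplication by the three variables -/
def e0 (c : IF) : IG := ⟨⟨c.1, by omega⟩, ⟨c.2, by have := c.2.2; simp only; omega⟩⟩
def e1 (c : IF) : IG := ⟨⟨c.1 + 1, by omega⟩, ⟨c.2, by have := c.2.2; simp only; omega⟩⟩
def e2 (c : IF) : IG := ⟨⟨c.1, by omega⟩, ⟨c.2 + 1, by have := c.2.2; simp only; omega⟩⟩

/-- multiplication of a form of degree 11 by the linear form `ℓ` -/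
def lmul (l : Fin 3 → k) (f : IF → k) : IG → k :=
  ∑ c, f c • (l 0 • Pi.single (e0 c) (1 : k) + l 1 • Pi.single (e1 c) (1 : k) +
    l 2 • Pi.single (e2 c) (1 : k))

lemma sum_e1 (q : Fin 3 → k) (f : IF → k) (α β : ℕ)
    (low : ∀ α' : ℕ, α = α' + 1 → ∑ c : IF, f c * mono 11 q c.1 c.2 α' β = 0) :
    ∑ c : IF, f c * mono 12 q (c.1 + 1) c.2 α β =
      q 1 * ∑ c : IF, f c * mono 11 q c.1 c.2 α β := by
  rw [Finset.mul_sum]
  rcases α with _ | α
  · apply Finset.sum_congr rfl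
    intro c _
    rw [mono_e1_zero]; ring
  · have hl := low _ rfl
    have : ∀ c : IF, f c * mono 12 q (c.1 + 1) c.2 (α + 1) β =
        q 1 * (f c * mono 11 q c.1 c.2 (α + 1) β) + f c * mono 11 q c.1 c.2 α β := by
      intro c; rw [mono_e1_succ]; ring
    rw [Finset.sum_congr rfl (fun c _ => this c), Finset.sum_add_distrib, hl, add_zero]

lemma sum_e2 (q : Fin 3 → k) (f : IF → k) (α β : ℕ)
    (low : ∀ β' : ℕ, β = β' + 1 → ∑ c : IF, f c * mono 11 q c.1 c.2 α β' = 0) :
    ∑ c : IF, f c * mono 12 q c.1 (c.2 + 1) α β =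
      q 2 * ∑ c : IF, f c * mono 11 q c.1 c.2 α β := by
  rw [Finset.mul_sum]
  rcases β with _ | β
  · apply Finset.sum_congr rfl
    intro c _
    rw [mono_e2_zero]; ring
  · have hl := low _ rfl
    have : ∀ c : IF, f c * mono 12 q c.1 (c.2 + 1) α (β + 1) =
        q 2 * (f c * mono 11 q c.1 c.2 α (β + 1)) + f c * mono 11 q c.1 c.2 α β := by
      intro c; rw [mono_e2_succ]; ring
    rw [Finset.sum_congr rfl (fun c _ => this c), Finset.sum_add_distrib, hl, add_zero]

lemma KA_lmul (q : Fin 10 → Fin 3 → k) (l : Fin 3 → k) (f : IF → k)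
    (hf : (JL q).mulVec f = 0) (r : RA) :
    (KA q).mulVec (lmul l f) r =
      (l 0 * q r.1 0 + l 1 * q r.1 1 + l 2 * q r.1 2) * (JA q).mulVec f r := by
  have h0 : (KA q).mulVec (lmul l f) r =
      ∑ c, f c * (l 0 * KA q r (e0 c) + l 1 * KA q r (e1 c) + l 2 * KA q r (e2 c)) := by
    unfold lmul
    rw [Matrix.mulVec_sum]
    rw [Finset.sum_apply]
    apply Finset.sum_congr rfl
    intro c _
    rw [Matrix.mulVec_smul, Matrix.mulVec_add, Matrix.mulVec_add, Matrix.mulVec_smul,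
      Matrix.mulVec_smul, Matrix.mulVec_smul]
    simp only [Matrix.mulVec_single_one, Pi.smul_apply, Pi.add_apply, smul_eq_mul]
    rfl
  rw [h0]
  obtain ⟨i, α, β⟩ := r
  have hα := α.2
  have hβ := β.2
  -- the lower jets vanish
  have low1 : ∀ α' : ℕ, (α : ℕ) = α' + 1 →
      ∑ c : IF, f c * mono 11 (q i) c.1 c.2 α' β = 0 := by
    intro α' h
    have := congrFun hf ⟨i, ⟨α', by omega⟩, ⟨β, by simp only; omega⟩⟩
    simp only [Matrix.mulVec, dotProduct, JL, Matrix.of_apply, Pi.zero_apply] at this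
    rw [← this]
    exact Finset.sum_congr rfl (fun c _ => mul_comm _ _)
  have low2 : ∀ β' : ℕ, (β : ℕ) = β' + 1 →
      ∑ c : IF, f c * mono 11 (q i) c.1 c.2 α β' = 0 := by
    intro β' h
    have := congrFun hf ⟨i, ⟨α, by omega⟩, ⟨β', by simp only; omega⟩⟩
    simp only [Matrix.mulVec, dotProduct, JL, Matrix.of_apply, Pi.zero_apply] at this
    rw [← this]
    exact Finset.sum_congr rfl (fun c _ => mul_comm _ _)
  have hJA : (JA q).mulVec f ⟨i, α, β⟩ = ∑ c : IF, f c * mono 11 (q i) c.1 c.2 α β := by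
    simp only [Matrix.mulVec, dotProduct, JA, Matrix.of_apply]
    exact Finset.sum_congr rfl (fun c _ => mul_comm _ _)
  have s0 : ∑ c : IF, f c * KA q ⟨i, α, β⟩ (e0 c) = q i 0 * (JA q).mulVec f ⟨i, α, β⟩ := by
    rw [hJA, Finset.mul_sum]
    apply Finset.sum_congr rfl
    intro c _
    simp only [KA, Matrix.of_apply, e0]
    rw [mono_e0 _ _ _ _ _ (by have := c.1.2; have := c.2.2; omega)]
    ring
  have s1 : ∑ c : IF, f c * KA q ⟨i, α, β⟩ (e1 c) = q i 1 * (JA q).mulVec f ⟨i, α, β⟩ := by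
    rw [hJA]
    exact sum_e1 (q i) f α β low1
  have s2 : ∑ c : IF, f c * KA q ⟨i, α, β⟩ (e2 c) = q i 2 * (JA q).mulVec f ⟨i, α, β⟩ := by
    rw [hJA]
    exact sum_e2 (q i) f α β low2
  have e : ∀ c : IF, f c * (l 0 * KA q ⟨i, α, β⟩ (e0 c) + l 1 * KA q ⟨i, α, β⟩ (e1 c) +
      l 2 * KA q ⟨i, α, β⟩ (e2 c)) = l 0 * (f c * KA q ⟨i, α, β⟩ (e0 c)) +
      l 1 * (f c * KA q ⟨i, α, β⟩ (e1 c)) + l 2 * (f c * KA q ⟨i, α, β⟩ (e2 c)) := by
    intro c; ring
  rw [Finset.sum_congr rfl (fun c _ => e c), Finset.sum_add_distrib, Finset.sum_add_distrib,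
    ← Finset.mul_sum, ← Finset.mul_sum, ← Finset.mul_sum, s0, s1, s2]
  ring

end field

end Pool.Agent.H72
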